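import Mathlib

/-!
# Project FC (helper325): Riesz polarization constants of compact sets of positive measure on the line
(MP_efb919_an). Statements of the leaves.

Notation: `K` compact, `lam = λ(K)`, `s > 1`, `Cc s = 2 Σ_{j ≥ 0} (j + 1/2)^(-s) = 2 (2^s - 1) ζ(s)`.
-/

set_option autoImplicit false
open Filter Topology MeasureTheory
open scoped ENNReal

namespace Pool.Agent.N325.FC

/-- the constant `2 Σ_{j ≥ 0} (j + 1/2)^{-s}` -/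
noncomputable def Cc (s : ℝ) : ℝ := 2 * ∑' j : ℕ, ((j : ℝ) + 1 / 2) ^ (-s)

/-- the `N`-th polarization constant of `K` (as in the frozen statement) -/
noncomputable def pol (K : Set ℝ) (s : ℝ) (N : ℕ) : ℝ≥0∞ :=
  ⨆ (x : Fin N → ℝ) (_ : ∀ i, x i ∈ K), ⨅ y ∈ K, ∑ j, (ENNReal.ofReal |y - x j|) ^ (-s)

/-- FC/UP -/
def StmUP : Prop := ∀ s : ℝ, 1 < s → ∀ N : ℕ, 1 ≤ N → ∀ (x : Fin N → ℝ) (L : ℝ), 0 < L →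
  ∃ z ∈ Set.Icc (0 : ℝ) L, (∀ i, x i ≠ z) ∧ ∑ i, |z - x i| ^ (-s) ≤ Cc s * ((N : ℝ) / L) ^ s

/-- FC/MAP -/
def StmMAP : Prop := ∀ K : Set ℝ, IsCompact K → K.Nonempty →
  ∃ F : ℝ → ℝ, (∀ a b : ℝ, |F a - F b| ≤ |a - b|) ∧
    ∀ z ∈ Set.Icc (0 : ℝ) (volume K).toReal, ∃ y ∈ K, F y = z

/-- FC/COUNT -/
def StmCOUNT : Prop := ∀ K : Set ℝ, IsCompact K → ∀ M m : ℕ, 1 ≤ M → 1 ≤ m → ∀ τ : ℝ, 0 < τ →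
  ∃ (B : Finset ℤ) (p : ℤ → ℝ) (r : ℤ),
    (∀ i ∈ B, p i ∈ K ∧ (i : ℝ) * τ ≤ p i ∧ p i < ((i : ℝ) + 1) * τ) ∧
    (B.card : ℝ) * (m * τ) ≤
      (volume (Metric.cthickening (((M : ℝ) * m + 2) * τ) K)).toReal +
      (2 * M * m + 1) * m * ((volume (Metric.cthickening (((M : ℝ) * m + 2) * τ) K)).toReal
        - (volume K).toReal) ∧
    ∀ y ∈ K, ⌊y / τ⌋ ∈ B ∨
      ∀ j : ℤ, |j - ⌊y / τ⌋| ≤ (M : ℤ) * m → (m : ℤ) ∣ j - r → j ∈ B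

/-- FC/POT -/
def StmPOT : Prop := ∀ s : ℝ, 0 < s → ∀ M m : ℕ, 1 ≤ M → 1 ≤ m → ∀ τ : ℝ, 0 < τ →
  ∀ (B : Finset ℤ) (p : ℤ → ℝ) (r : ℤ) (y : ℝ),
    (∀ i ∈ B, (i : ℝ) * τ ≤ p i ∧ p i < ((i : ℝ) + 1) * τ) →
    (⌊y / τ⌋ ∈ B ∨ ∀ j : ℤ, |j - ⌊y / τ⌋| ≤ (M : ℤ) * m → (m : ℤ) ∣ j - r → j ∈ B) →
    ENNReal.ofReal (min ((m : ℝ) ^ s) (2 * ∑ j ∈ Finset.range M, ((j : ℝ) + 1 / 2 + 1 / m) ^ (-s))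
      * (m * τ) ^ (-s)) ≤ ∑ i ∈ B, (ENNReal.ofReal |y - p i|) ^ (-s)

/-- FC/ZETA -/
def StmZETA : Prop := ∀ s : ℝ, 1 < s →
  Summable (fun j : ℕ => ((j : ℝ) + 1 / 2) ^ (-s)) ∧
  Cc s = 2 * (2 ^ s - 1) * (riemannZeta (s : ℂ)).re

end Pool.Agent.N325.FC
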