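import Pool.Agent.N325.FC.Main
import Pool.Agent.N861.FC.Map
import Pool.Agent.N252.FC.Count
import Pool.Agent.N38.FC.Zeta
import Pool.Agent.N364.FC.Up
import Pool.Agent.N607.FC.Pot

/-!
# Project FC (helper325): the limit of the Riesz polarization constants of a compact set of positive
measure on the line
-/

set_option autoImplicit false
open Filter Topology MeasureTheory
open scoped ENNReal

namespace Pool.Agent.N325.FC

theorem final (K : Set ℝ) (hK : IsCompact K) (hpos : 0 < volume K) (s : ℝ) (hs : 1 < s) :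
    (∀ N : ℕ, 1 ≤ N →
      (⨆ (x : Fin N → ℝ) (_ : ∀ i, x i ∈ K),
        ⨅ y ∈ K, ∑ j, (ENNReal.ofReal |y - x j|) ^ (-s)) / ((N : ℝ≥0∞) ^ s) ≤
      ENNReal.ofReal (2 * (2 ^ s - 1) * (riemannZeta (s : ℂ)).re * (volume K).toReal ^ (-s))) ∧
    Tendsto
      (fun N : ℕ =>
        (⨆ (x : Fin N → ℝ) (_ : ∀ i, x i ∈ K),
          ⨅ y ∈ K, ∑ j, (ENNReal.ofReal |y - x j|) ^ (-s)) / ((N : ℝ≥0∞) ^ s))
      atTop
      (𝓝 (ENNReal.ofReal
        (2 * (2 ^ s - 1) * (riemannZeta (s : ℂ)).re * (volume K).toReal ^ (-s)))) := by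
  have hZ : StmZETA := Pool.Agent.N38.FC.zeta
  have hUP : StmUP := Pool.Agent.N364.FC.up
  have hMAP : StmMAP := N861.FC.map
  have hCc := (hZ s hs).2
  have hne : K.Nonempty := by
    rcases K.eq_empty_or_nonempty with h | h
    · rw [h, measure_empty] at hpos
      exact absurd hpos (lt_irrefl _)
    · exact h
  have hlam : 0 < (volume K).toReal := ENNReal.toReal_pos hpos.ne' hK.measure_lt_top.ne
  constructor
  · intro N hN
    have hNR : (0 : ℝ) < N := by exact_mod_cast hN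
    have h1 := upper hUP hMAP hK hne hlam hs N hN
    have e1 : Cc s * ((N : ℝ) / (volume K).toReal) ^ s
        = (Cc s * (volume K).toReal ^ (-s)) * (N : ℝ) ^ s := by
      rw [Real.div_rpow hNR.le hlam.le, Real.rpow_neg hlam.le]
      ring
    have h0 : (0 : ℝ) < (N : ℝ) ^ s := Real.rpow_pos_of_pos hNR _
    have hNs : ((N : ℝ≥0∞)) ^ s = ENNReal.ofReal ((N : ℝ) ^ s) := by
      rw [← ENNReal.ofReal_natCast, ENNReal.ofReal_rpow_of_pos hNR]
    rw [← hCc]
    calc pol K s N / ((N : ℝ≥0∞) ^ s)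
        ≤ ENNReal.ofReal ((Cc s * (volume K).toReal ^ (-s)) * (N : ℝ) ^ s) / ((N : ℝ≥0∞) ^ s) := by
          refine ENNReal.div_le_div_right ?_ _
          rw [← e1]
          exact h1
      _ = ENNReal.ofReal (Cc s * (volume K).toReal ^ (-s)) := by
          rw [hNs, ← ENNReal.ofReal_div_of_pos h0, mul_div_assoc, div_self h0.ne', mul_one]
  · rw [← hCc]
    exact main hUP hMAP Pool.Agent.N252.FC.count Pool.Agent.N607.FC.pot hZ hK hpos hs

end Pool.Agent.N325.FC
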