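import Pool.Agent.N325.FC.Stm

/-!
# Project FC (helper325): assembly
-/

set_option autoImplicit false
open Filter Topology MeasureTheory
open scoped ENNReal

namespace Pool.Agent.N325.FC

lemma rpow_neg_anti {a b : ℝ≥0∞} {s : ℝ} (hs : 0 ≤ s) (h : a ≤ b) : b ^ (-s) ≤ a ^ (-s) := by
  rw [ENNReal.rpow_neg, ENNReal.rpow_neg]
  exact ENNReal.inv_le_inv.2 (ENNReal.rpow_le_rpow h hs)

/-- a finite family of points of `K` bounds the polarization constant from below -/
lemma pol_ge {K : Set ℝ} (hne : K.Nonempty) {s : ℝ} (B : Finset ℤ) (p : ℤ → ℝ)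
    (hp : ∀ i ∈ B, p i ∈ K) (N : ℕ) (hN : B.card ≤ N) (c : ℝ≥0∞)
    (hc : ∀ y ∈ K, c ≤ ∑ i ∈ B, (ENNReal.ofReal |y - p i|) ^ (-s)) : c ≤ pol K s N := by
  classical
  obtain ⟨k0, hk0⟩ := hne
  let e : Fin B.card ≃ B := B.equivFin.symm
  let x : Fin N → ℝ := fun j => if h : j.1 < B.card then p (e ⟨j.1, h⟩) else k0
  have hx : ∀ j, x j ∈ K := by
    intro j
    simp only [x]
    split_ifs with h
    · exact hp _ (e ⟨j.1, h⟩).2
    · exact hk0
  unfold pol
  refine le_trans ?_ (le_iSup₂_of_le x hx le_rfl)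
  refine le_iInf₂ fun y hy => (hc y hy).trans ?_
  calc ∑ i ∈ B, (ENNReal.ofReal |y - p i|) ^ (-s)
      = ∑ i : B, (ENNReal.ofReal |y - p i|) ^ (-s) := (Finset.sum_coe_sort B _).symm
    _ = ∑ j : Fin B.card, (ENNReal.ofReal |y - p (e j)|) ^ (-s) :=
        (Equiv.sum_comp e (fun i : B => (ENNReal.ofReal |y - p i|) ^ (-s))).symm
    _ = ∑ j : Fin B.card, (ENNReal.ofReal |y - x (Fin.castLEEmb hN j)|) ^ (-s) := by
        refine Finset.sum_congr rfl fun j _ => ?_
        have : x (Fin.castLEEmb hN j) = p (e j) := by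
          simp only [x, Fin.castLEEmb_apply, Fin.val_castLE]
          rw [dif_pos j.2]
        rw [this]
    _ = ∑ j ∈ Finset.univ.map (Fin.castLEEmb hN), (ENNReal.ofReal |y - x j|) ^ (-s) :=
        (Finset.sum_map Finset.univ (Fin.castLEEmb hN)
          (fun j => (ENNReal.ofReal |y - x j|) ^ (-s))).symm
    _ ≤ ∑ j, (ENNReal.ofReal |y - x j|) ^ (-s) :=
        Finset.sum_le_sum_of_subset (Finset.subset_univ _)

/-- upper bound for every `N` -/
theorem upper (hUP : StmUP) (hMAP : StmMAP) {K : Set ℝ} (hK : IsCompact K) (hne : K.Nonempty)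
    (hpos : 0 < (volume K).toReal) {s : ℝ} (hs : 1 < s) (N : ℕ) (hN : 1 ≤ N) :
    pol K s N ≤ ENNReal.ofReal (Cc s * ((N : ℝ) / (volume K).toReal) ^ s) := by
  obtain ⟨F, hF, hsur⟩ := hMAP K hK hne
  refine iSup₂_le fun x hx => ?_
  obtain ⟨z, hz, hzne, hle⟩ := hUP s hs N hN (fun i => F (x i)) _ hpos
  obtain ⟨y, hy, hyz⟩ := hsur z hz
  refine (iInf₂_le y hy).trans ?_
  have h1 : ∀ i, (ENNReal.ofReal |y - x i|) ^ (-s) ≤ ENNReal.ofReal (|z - F (x i)| ^ (-s)) := by
    intro i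
    have hpos' : 0 < |z - F (x i)| := abs_pos.2 (sub_ne_zero.2 (hzne i).symm)
    rw [← ENNReal.ofReal_rpow_of_pos hpos']
    refine rpow_neg_anti (by linarith) (ENNReal.ofReal_le_ofReal ?_)
    rw [← hyz]
    exact hF y (x i)
  calc ∑ j, (ENNReal.ofReal |y - x j|) ^ (-s)
      ≤ ∑ j, ENNReal.ofReal (|z - F (x j)| ^ (-s)) := Finset.sum_le_sum fun i _ => h1 i
    _ = ENNReal.ofReal (∑ j, |z - F (x j)| ^ (-s)) :=
        (ENNReal.ofReal_sum_of_nonneg fun i _ => Real.rpow_nonneg (abs_nonneg _) _).symm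
    _ ≤ _ := ENNReal.ofReal_le_ofReal hle

/-- the constant of the lower bound -/
noncomputable def cc (s : ℝ) (M m : ℕ) : ℝ :=
  min ((m : ℝ) ^ s) (2 * ∑ j ∈ Finset.range M, ((j : ℝ) + 1 / 2 + 1 / m) ^ (-s))

lemma cc_nonneg (s : ℝ) (M m : ℕ) : 0 ≤ cc s M m := by
  refine le_min (Real.rpow_nonneg (Nat.cast_nonneg _) _) ?_
  refine mul_nonneg (by norm_num) (Finset.sum_nonneg fun j _ => Real.rpow_nonneg (by positivity) _)

/-- lower bound for all large `N` -/
theorem lower (hCOUNT : StmCOUNT) (hPOT : StmPOT) {K : Set ℝ} (hK : IsCompact K)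
    (hne : K.Nonempty) {s : ℝ} (hs : 1 < s) (M m : ℕ) (hM : 1 ≤ M)
    (hm : 1 ≤ m) (η : ℝ) (hη : 0 < η) :
    ∀ᶠ N : ℕ in atTop,
      ENNReal.ofReal (cc s M m * (((volume K).toReal + η) / N) ^ (-s)) ≤ pol K s N := by
  set lam := (volume K).toReal with hlam
  have hlam0 : 0 ≤ lam := ENNReal.toReal_nonneg
  have hfin : volume K ≠ ⊤ := hK.measure_lt_top.ne
  have hV : Tendsto (fun r : ℝ => (volume (Metric.cthickening r K)).toReal) (𝓝 0) (𝓝 lam) :=
    (ENNReal.tendsto_toReal hfin).comp (tendsto_measure_cthickening_of_isCompact hK)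
  have hτ : Tendsto (fun N : ℕ => (((M : ℝ) * m + 2) * ((lam + η) / (m * N)))) atTop (𝓝 0) := by
    have h1 : Tendsto (fun N : ℕ => (((M : ℝ) * m + 2) * ((lam + η) / m)) / (N : ℝ)) atTop (𝓝 0) :=
      tendsto_const_div_atTop_nhds_zero_nat _
    refine h1.congr fun N => ?_
    rw [← div_div, mul_div_assoc]
  have hW : Tendsto (fun N : ℕ =>
      (volume (Metric.cthickening (((M : ℝ) * m + 2) * ((lam + η) / (m * N))) K)).toReal +
      (2 * M * m + 1) * m *
        ((volume (Metric.cthickening (((M : ℝ) * m + 2) * ((lam + η) / (m * N))) K)).toReal - lam))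
      atTop (𝓝 (lam + (2 * M * m + 1) * m * (lam - lam))) := by
    have h2 := hV.comp hτ
    exact h2.add ((h2.sub tendsto_const_nhds).const_mul _)
  have hlt : lam + (2 * (M : ℝ) * m + 1) * m * (lam - lam) < lam + η := by
    rw [sub_self, mul_zero]; linarith
  filter_upwards [hW.eventually (gt_mem_nhds hlt), eventually_ge_atTop 1] with N hNW hN1
  have hmR : (0 : ℝ) < m := by exact_mod_cast hm
  have hNR : (0 : ℝ) < N := by exact_mod_cast hN1
  set τ := (lam + η) / (m * N) with hτdef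
  have hτ0 : 0 < τ := by positivity
  obtain ⟨B, p, r, hp, hcard, hB⟩ := hCOUNT K hK M m hM hm τ hτ0
  have hmτ : (m : ℝ) * τ = (lam + η) / N := by
    rw [hτdef]; field_simp
  have hcardN : B.card ≤ N := by
    have h3 : (B.card : ℝ) * ((lam + η) / N) ≤ lam + η := by
      rw [← hmτ]
      exact hcard.trans hNW.le
    have h4 : (B.card : ℝ) ≤ N := by
      rw [← mul_div_assoc, div_le_iff₀ hNR, mul_comm (lam + η)] at h3
      exact le_of_mul_le_mul_right h3 (by linarith)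
    exact_mod_cast h4
  refine pol_ge hne B p (fun i hi => (hp i hi).1) N hcardN _ fun y hy => ?_
  have h5 := hPOT s (by linarith) M m hM hm τ hτ0 B p r y (fun i hi => (hp i hi).2) (hB y hy)
  rw [hmτ] at h5
  exact h5

lemma cc_tendsto (s : ℝ) (hs : 1 < s) (M : ℕ) :
    Tendsto (fun m : ℕ => cc s M m) atTop
      (𝓝 (2 * ∑ j ∈ Finset.range M, ((j : ℝ) + 1 / 2) ^ (-s))) := by
  have h1 : Tendsto (fun m : ℕ => 2 * ∑ j ∈ Finset.range M, ((j : ℝ) + 1 / 2 + 1 / m) ^ (-s))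
      atTop (𝓝 (2 * ∑ j ∈ Finset.range M, ((j : ℝ) + 1 / 2) ^ (-s))) := by
    refine (tendsto_finsetSum _ fun j _ => ?_).const_mul 2
    have h2 : Tendsto (fun m : ℕ => (j : ℝ) + 1 / 2 + 1 / (m : ℝ)) atTop (𝓝 ((j : ℝ) + 1 / 2 + 0)) :=
      tendsto_const_nhds.add tendsto_one_div_atTop_nhds_zero_nat
    rw [add_zero] at h2
    exact h2.rpow_const (Or.inl (by positivity))
  refine h1.congr' ?_
  have h3 : Tendsto (fun m : ℕ => ((m : ℝ)) ^ s) atTop atTop :=
    (tendsto_rpow_atTop (by linarith)).comp tendsto_natCast_atTop_atTop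
  have h4 := h3.eventually_ge_atTop (2 * ∑ j ∈ Finset.range M, ((j : ℝ) + 1 / 2) ^ (-s) + 1)
  have h5 := h1.eventually (gt_mem_nhds (lt_add_one _))
  filter_upwards [h4, h5] with m hm4 hm5
  rw [cc, min_eq_right]
  linarith

/-- MAIN: the polarization constants of a compact set of positive measure on the line -/
theorem main (hUP : StmUP) (hMAP : StmMAP) (hCOUNT : StmCOUNT) (hPOT : StmPOT) (hZ : StmZETA)
    {K : Set ℝ} (hK : IsCompact K) (hpos : 0 < volume K) {s : ℝ} (hs : 1 < s) :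
    Tendsto (fun N : ℕ => pol K s N / ((N : ℝ≥0∞) ^ s)) atTop
      (𝓝 (ENNReal.ofReal (Cc s * (volume K).toReal ^ (-s)))) := by
  have hne : K.Nonempty := by
    rcases K.eq_empty_or_nonempty with h | h
    · rw [h, measure_empty] at hpos
      exact absurd hpos (lt_irrefl _)
    · exact h
  have hlam : 0 < (volume K).toReal := ENNReal.toReal_pos hpos.ne' hK.measure_lt_top.ne
  set lam := (volume K).toReal with hlamdef
  have hCc : Tendsto (fun M : ℕ => 2 * ∑ j ∈ Finset.range M, ((j : ℝ) + 1 / 2) ^ (-s)) atTop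
      (𝓝 (Cc s)) := ((hZ s hs).1.hasSum.tendsto_sum_nat).const_mul 2
  have hNs : ∀ N : ℕ, 1 ≤ N → ((N : ℝ≥0∞)) ^ s = ENNReal.ofReal ((N : ℝ) ^ s) := by
    intro N hN
    rw [← ENNReal.ofReal_natCast, ENNReal.ofReal_rpow_of_pos (by exact_mod_cast hN)]
  have hdiv : ∀ (c : ℝ) (N : ℕ), 1 ≤ N → 0 ≤ c →
      ENNReal.ofReal (c * (N : ℝ) ^ s) / ((N : ℝ≥0∞) ^ s) = ENNReal.ofReal c := by
    intro c N hN hc
    have h0 : (0 : ℝ) < (N : ℝ) ^ s := Real.rpow_pos_of_pos (by exact_mod_cast hN) _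
    rw [hNs N hN, ← ENNReal.ofReal_div_of_pos h0, mul_div_assoc, div_self h0.ne', mul_one]
  have hCc0 : 0 ≤ Cc s := by
    unfold Cc
    exact mul_nonneg (by norm_num) (tsum_nonneg fun j => Real.rpow_nonneg (by positivity) _)
  rw [tendsto_order]
  constructor
  · intro a ha
    have hatop : a ≠ ⊤ := (ha.trans_le le_top).ne
    have ha' : a.toReal < Cc s * lam ^ (-s) := by
      rw [← ENNReal.ofReal_toReal hatop] at ha
      exact (ENNReal.ofReal_lt_ofReal_iff_of_nonneg ENNReal.toReal_nonneg).1 ha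
    obtain ⟨M, hM, hM1⟩ := (((hCc.mul_const (lam ^ (-s))).eventually (lt_mem_nhds ha')).and
      (eventually_ge_atTop 1)).exists
    have hm : Tendsto (fun m : ℕ => cc s M m * (lam + 1 / (m : ℝ)) ^ (-s)) atTop
        (𝓝 ((2 * ∑ j ∈ Finset.range M, ((j : ℝ) + 1 / 2) ^ (-s)) * lam ^ (-s))) := by
      refine (cc_tendsto s hs M).mul ?_
      have h2 : Tendsto (fun m : ℕ => lam + 1 / (m : ℝ)) atTop (𝓝 (lam + 0)) :=
        tendsto_const_nhds.add tendsto_one_div_atTop_nhds_zero_nat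
      rw [add_zero] at h2
      exact h2.rpow_const (Or.inl hlam.ne')
    obtain ⟨m, hma, hm1⟩ := ((hm.eventually (lt_mem_nhds hM)).and (eventually_ge_atTop 1)).exists
    have hmR : (0 : ℝ) < m := by exact_mod_cast hm1
    filter_upwards [lower hCOUNT hPOT hK hne hs M m hM1 hm1 (1 / m) (by positivity),
      eventually_ge_atTop 1] with N hN hN1
    have hNR : (0 : ℝ) < N := by exact_mod_cast hN1
    have e1 : cc s M m * ((lam + 1 / (m : ℝ)) / N) ^ (-s)
        = (cc s M m * (lam + 1 / (m : ℝ)) ^ (-s)) * (N : ℝ) ^ s := by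
      rw [Real.div_rpow (by positivity) hNR.le, Real.rpow_neg hNR.le, div_inv_eq_mul, mul_assoc]
    have e2 : 0 ≤ cc s M m * (lam + 1 / (m : ℝ)) ^ (-s) :=
      mul_nonneg (cc_nonneg _ _ _) (Real.rpow_nonneg (by positivity) _)
    calc a = ENNReal.ofReal a.toReal := (ENNReal.ofReal_toReal hatop).symm
      _ < ENNReal.ofReal (cc s M m * (lam + 1 / (m : ℝ)) ^ (-s)) :=
          (ENNReal.ofReal_lt_ofReal_iff_of_nonneg ENNReal.toReal_nonneg).2 hma
      _ = ENNReal.ofReal ((cc s M m * (lam + 1 / (m : ℝ)) ^ (-s)) * (N : ℝ) ^ s) /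
            ((N : ℝ≥0∞) ^ s) := (hdiv _ N hN1 e2).symm
      _ ≤ pol K s N / ((N : ℝ≥0∞) ^ s) := by
          refine ENNReal.div_le_div_right ?_ _
          rw [← e1]
          exact hN
  · intro a ha
    filter_upwards [eventually_ge_atTop 1] with N hN1
    have hNR : (0 : ℝ) < N := by exact_mod_cast hN1
    refine lt_of_le_of_lt ?_ ha
    have h1 := upper hUP hMAP hK hne hlam hs N hN1
    have e1 : Cc s * ((N : ℝ) / lam) ^ s = (Cc s * lam ^ (-s)) * (N : ℝ) ^ s := by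
      rw [Real.div_rpow hNR.le hlam.le, Real.rpow_neg hlam.le]
      ring
    calc pol K s N / ((N : ℝ≥0∞) ^ s)
        ≤ ENNReal.ofReal ((Cc s * lam ^ (-s)) * (N : ℝ) ^ s) / ((N : ℝ≥0∞) ^ s) := by
          refine ENNReal.div_le_div_right ?_ _
          rw [← e1]
          exact h1
      _ = ENNReal.ofReal (Cc s * lam ^ (-s)) :=
          hdiv _ N hN1 (mul_nonneg hCc0 (Real.rpow_nonneg hlam.le _))

end Pool.Agent.N325.FC
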